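import Pool.Agent.R748.CH.All

/-!
# Chernoff's density is strongly log-concave (MP_0705dc_pr)

`Ai` is the Airy function, given by its classical integral taken over the line `Im = 1`
(absolutely convergent there); `g` is Groeneboom's function, the inverse Fourier transform of
`l ↦ 2^{1/3} / Ai (i 2^{-1/3} l)`; `fZ t = (1/2) g(t) g(-t)` is Chernoff's density, the density of
`argmax (W(t) - t^2)` (Groeneboom 1985, 1989).
-/

set_option autoImplicit false

namespace Pool.Agent.Results.MP_0705dc_pr.StronglyLogConcave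

open Complex MeasureTheory

/-- The Airy function: `Ai z = (1/2π) ∫ exp (i (w³/3 + z w)) dw` over the line `w = s + i`, `s ∈ ℝ`. -/
noncomputable def Ai (z : ℂ) : ℂ :=
  ((1 / (2 * Real.pi) : ℝ) : ℂ) *
    ∫ s : ℝ, cexp (I * (((s : ℂ) + I) ^ 3 / 3 + z * ((s : ℂ) + I)))

/-- Groeneboom's function `g(t) = (1/2π) ∫ e^{-ilt} 2^{1/3} / Ai (i 2^{-1/3} l) dl`. -/
noncomputable def g (t : ℝ) : ℂ :=
  ((1 / (2 * Real.pi) : ℝ) : ℂ) * ∫ l : ℝ, cexp (-(I * (l : ℂ) * (t : ℂ))) *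
    ((((2 : ℝ) ^ ((1 : ℝ) / 3) : ℝ) : ℂ) / Ai (I * ((((2 : ℝ) ^ (-((1 : ℝ) / 3)) : ℝ) * l : ℝ) : ℂ)))

/-- Chernoff's density, `f_Z(t) = (1/2) g(t) g(-t)`. -/
noncomputable def fZ (t : ℝ) : ℝ := (1 / 2) * (g t).re * (g (-t)).re

/-- **Chernoff's density is strongly log-concave**: `g` is real and positive, `f_Z` is positive and
twice continuously differentiable, and there is `c > 0` with `-(log f_Z)'' ≥ c` on the whole line
(equivalently `-log f_Z - (c/2) t²` is convex). -/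
theorem result :
    (∀ t : ℝ, (g t).im = 0 ∧ 0 < (g t).re) ∧ (∀ t : ℝ, 0 < fZ t) ∧ ContDiff ℝ 2 fZ ∧
    ∃ c : ℝ, 0 < c ∧
      (∀ t : ℝ, c ≤ -(iteratedDeriv 2 (fun s => Real.log (fZ s)) t)) ∧
      ConvexOn ℝ Set.univ (fun t => -Real.log (fZ t) - c / 2 * t ^ 2) := by
  obtain ⟨c, hc, h1, h2, h3, h4⟩ := Pool.Agent.R748.CH.all_FINAL
  refine ⟨fun t => ?_, h1, h2, c, hc, h3, h4⟩
  exact Pool.Agent.R748.CH.all_G t

end Pool.Agent.Results.MP_0705dc_pr.StronglyLogConcave
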